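import Pool.Agent.Helper61.LN.GoalsC
import Pool.Agent.Helper35.Skl.Vals

/-!
PROJECT LN (MP_c65973_gt), CR (helper90): crossing numbers of connected sums with torus knots.
-/

set_option autoImplicit false

namespace Pool.Agent.Helper90.LN.CR

open Pool.Agent.Helper31.Sk Pool.Agent.Helper35.Skl Pool.Agent.Helper61.LN

/-- a knot diagram with `N` crossings for which the lower bound is sharp -/
def V (w : Word) (N : ℕ) : Prop :=
  IsKnot w ∧ crossings w = N ∧ Q w ≠ 0 ∧ padicValRat 19 (Q w) = -(4 * N + 4 : ℤ)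

theorem val19 (N : ℕ) : padicValRat 19 ((19 : ℚ) ^ N) = N := by
  have : Fact (Nat.Prime 19) := ⟨by norm_num⟩
  have h1 : padicValRat 19 (19 : ℚ) = 1 := by
    have := padicValRat.self (p := 19) (by norm_num)
    exact_mod_cast this
  have h3 := padicValRat.pow (p := 19) (19 : ℚ) (k := N)
  rw [h1, mul_one] at h3
  exact h3

theorem cr_of {w : Word} {N : ℕ} (h : V w N) : cr w = N := by
  obtain ⟨hK, hc, h0, hv⟩ := h
  have : Fact (Nat.Prime 19) := ⟨by norm_num⟩
  refine le_antisymm ?_ ?_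
  · have := cr_le (iso_refl 0 0 w)
    omega
  · refine cr_ge hK ?_
    rintro ⟨z, hz⟩
    have h19 : (19 : ℚ) ^ (4 * N) ≠ 0 := by positivity
    have h1 : padicValRat 19 ((19 : ℚ) ^ (4 * N) * Q w) = -4 := by
      rw [padicValRat.mul h19 h0, val19, hv]
      push_cast
      ring
    rw [hz, padicValRat.of_int] at h1
    omega

theorem knot_ne {w : Word} (h : IsKnot w) : w ≠ [] := by
  rintro rfl
  have := h.2
  simp [orients] at this

theorem crossings_TT (n : ℕ) : crossings (TT n) = n := by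
  unfold TT
  rw [crossings_cons, crossings_append]
  have h : ∀ n : ℕ, crossings (List.replicate n (0, Gen.neg)) = n := by
    intro n
    induction n with
    | zero => rfl
    | succ n ih =>
      rw [List.replicate_succ, crossings_cons, ih]
      simp
      omega
  rw [h]
  simp [crossings]

theorem crossings_con {T w : Word} (hw : w ≠ []) : crossings (con T w) = crossings T + crossings w := by
  rcases w with _ | ⟨⟨i, g⟩, w⟩
  · exact absurd rfl hw
  · show crossings ((i, g) :: (T ++ w)) = _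
    rw [crossings_cons, crossings_append, crossings_cons]
    omega

theorem con_V (h : S_SC) (hg : S_GOOD) {n : ℕ} (hn : n = 3 ∨ n = 5) {w : Word} {N : ℕ} (hV : V w N) :
    V (con (TT n) w) (N + n) := by
  have : Fact (Nat.Prime 19) := ⟨by norm_num⟩
  obtain ⟨hK, hc, h0, hv⟩ := hV
  obtain ⟨s, s', h1, h2, h3, h4⟩ := h n hn
  have hG : Good (TT n) := by
    rcases hn with rfl | rfl
    · exact hg.1
    · exact hg.2
  have hQ : Q (con (TT n) w) = s * s' * Q w := by
    unfold Q
    rw [h1 w hK, h2 w hK]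
    ring
  refine ⟨hG.knot w hK, ?_, ?_, ?_⟩
  · rw [crossings_con (knot_ne hK), crossings_TT, hc]
    omega
  · rw [hQ]
    exact mul_ne_zero h3 h0
  · rw [hQ, padicValRat.mul h3 h0, h4, hv]
    push_cast
    ring

theorem val_exact {N : ℕ} {x : ℚ} (h : Exact N x) : x ≠ 0 ∧ padicValRat 19 x = -(N : ℤ) := by
  have : Fact (Nat.Prime 19) := ⟨by norm_num⟩
  obtain ⟨z, hn, hz⟩ := h
  have hz0 : z ≠ 0 := by
    rintro rfl
    exact hn (dvd_zero _)
  have hx : x ≠ 0 := by
    rintro rfl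
    rw [mul_zero] at hz
    exact hz0 (by exact_mod_cast hz.symm)
  refine ⟨hx, ?_⟩
  have h19 : (19 : ℚ) ^ N ≠ 0 := by positivity
  have h1 := congrArg (padicValRat 19) hz
  rw [padicValRat.mul h19 hx, val19, padicValRat.of_int,
    padicValInt.eq_zero_of_not_dvd (by exact_mod_cast hn)] at h1
  push_cast at h1
  linarith

theorem V_unknot : V unknot 0 := by
  have hbk : ∀ a b : ℚ, bk a b unknot = a ^ 2 + b ^ 2 := by
    intro a b
    have h := bk_loop (a := a) (b := b) (u := []) (k := 0) (i := 0) rfl le_rfl []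
    have h0 : bk a b ([] : Word) = 1 := by simp [bk]
    simp only [List.nil_append] at h
    rw [h0, mul_one] at h
    exact h
  have hQ : Q unknot = ((19 : ℚ) ^ 2 + (1 / 19) ^ 2) ^ 2 := by
    unfold Q
    rw [hbk, hbk]
    ring
  obtain ⟨h1, h2⟩ := val_exact exact_delta
  refine ⟨isKnot_unknot, by decide, ?_, ?_⟩
  · rw [hQ]; exact h1
  · rw [hQ, h2]; norm_num

theorem V_f8 : V (Dk 2 .neg 2) 4 := by
  have : Fact (Nat.Prime 19) := ⟨by norm_num⟩
  obtain ⟨h1, h2⟩ := val_exact (exact_neg 0 0)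
  obtain ⟨h3, h4⟩ := val_exact exact_delta
  have h5 : Q (Dk 2 .neg 2) ≠ 0 := by
    intro h
    apply h1
    rw [show 2 * (0 + 1) = 2 from rfl, h, mul_zero]
  refine ⟨⟨lgt_of rfl, by decide⟩, by decide, h5, ?_⟩
  have h6 : padicValRat 19 (((19 : ℚ) ^ 2 + (1 / 19) ^ 2) ^ 2 * Q (Dk 2 .neg 2)) =
      -((8 * 0 + 8 * 0 + 24 : ℕ) : ℤ) := h2
  rw [padicValRat.mul h3 h5, h4] at h6
  push_cast at h6 ⊢
  linarith

theorem ex (h : S_SC) (hg : S_GOOD) : ∀ m : ℕ, (m = 0 ∨ 3 ≤ m) → ∃ w, V w m := by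
  intro m
  induction m using Nat.strong_induction_on with
  | _ m ih =>
    intro hm
    by_cases h0 : m = 0
    · rw [h0]
      exact ⟨_, V_unknot⟩
    by_cases h4 : m = 4
    · rw [h4]
      exact ⟨_, V_f8⟩
    by_cases h5 : m = 5
    · rw [h5]
      exact ⟨_, con_V h hg (Or.inr rfl) V_unknot⟩
    · obtain ⟨w, hw⟩ := ih (m - 3) (by omega) (by omega)
      have := con_V h hg (Or.inl rfl) hw
      rw [show m - 3 + 3 = m by omega] at this
      exact ⟨_, this⟩

theorem t (h : S_SC) (hg : S_GOOD) : S_CR := by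
  classical
  choose f hf using ex h hg
  refine ⟨fun m => if hm : m = 0 ∨ 3 ≤ m then f m hm else [], fun m hm => ?_⟩
  simp only [dif_pos hm]
  exact ⟨(hf m hm).1, cr_of (hf m hm), cr_of (con_V h hg (Or.inl rfl) (hf m hm)),
    cr_of (con_V h hg (Or.inr rfl) (hf m hm))⟩

end Pool.Agent.Helper90.LN.CR
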