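import Pool.Agent.Helper64.LN.GoalsA

set_option autoImplicit false

/-! Project LN, packet GE1: from coordinates to sides. -/

namespace Pool.Agent.Helper90.LN

open Pool.Agent.Helper64.LN

section
variable {H : Type} [Group H]

theorem nc_symm {a b : H} (h : Nc a b) : Nc b a := fun h1 => h h1.symm

theorem nc_inv {a b : H} (h : Nc a b) : Nc a b⁻¹ := by
  intro h1
  apply h
  have h2 : Commute a b⁻¹ := h1
  exact (Commute.inv_right_iff.1 h2)

theorem nc_conj {a b : H} (h : Nc a b) : Nc a (a * b * a⁻¹) := by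
  intro h1
  apply h
  have h2 : a * (a * b * a⁻¹) = a * b := by
    rw [h1]
    group
  have h3 : a * b * a⁻¹ = b := mul_left_cancel h2
  calc a * b = (a * b * a⁻¹) * a := by group
    _ = b * a := by rw [h3]

variable {D : Subgroup H} {Sp : H → H → H → Prop} {hy : H → Prop} {τ : H → H → ℝ} {κ : H → ℝ}

theorem cr_iff (hC : Coord D Sp hy τ κ) {a b : H} (ha : a ∈ D) (hb : b ∈ D) (h : hy a)
    (hn : Nc a b) : Cr Sp a b ↔ τ a b * τ a b⁻¹ < 0 :=
  hC.self a ha b hb b⁻¹ (D.inv_mem hb) h hn (nc_inv hn)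

theorem hp_hy (hC : Coord D Sp hy τ κ) {a : H} (ha : a ∈ D) (h : Hp D Sp a) : hy a := by
  obtain ⟨e, he, hc⟩ := h
  exact (hC.crhy a ha e he hc).1

theorem pos_of_not_cr (hC : Coord D Sp hy τ κ) {a b : H} (ha : a ∈ D) (hb : b ∈ D) (h : hy a)
    (hn : Nc a b) (hc : ¬ Cr Sp a b) : 0 < τ a b * τ a b⁻¹ := by
  rw [cr_iff hC ha hb h hn] at hc
  have h1 := hC.nz a ha b hb h hn
  have h2 := hC.nz a ha b⁻¹ (D.inv_mem hb) h (nc_inv hn)
  exact lt_of_le_of_ne (not_lt.1 hc) (mul_ne_zero h1 h2).symm

theorem goalGE1 : GoalGE1 := by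
  intro H _ D Sp hy τ κ hG hC
  refine ⟨?_, ?_, ?_, ?_, ?_, ?_⟩
  · -- crcom
    intro a ha b hb c hc hab hcom hc1
    have hba := hG.symm a ha b hb hab
    have hyb := (hC.crhy a ha b hb hab).2
    have nab := hG.comm a ha b hb hab
    have nba := nc_symm nab
    have nbc : Nc b c := by
      intro h1
      exact nba (hG.trans b hb c hc a ha hc1 h1 hcom.symm)
    have h2 := (cr_iff hC hb ha hyb nba).1 hba
    have h3 : Cr Sp b c := by
      rw [cr_iff hC hb hc hyb nbc]
      rcases hC.com b hb a ha c hc hyb nba nbc hcom with ⟨e1, e2⟩ | ⟨e1, e2⟩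
      · rw [e1, e2]; exact h2
      · rw [e1, e2, mul_comm]; exact h2
    exact hG.symm b hb c hc h3
  · -- side
    intro a ha b hb c hc hp nab nac
    have hya := hp_hy hC ha hp
    rw [hC.self a ha b hb c hc hya nab nac]
    have h1 := hC.nz a ha b hb hya nab
    have h2 := hC.nz a ha c hc hya nac
    unfold sdT
    rw [mul_neg_iff]
    constructor
    · rintro (⟨h3, h4⟩ | ⟨h3, h4⟩)
      · exact ⟨fun h => absurd h (not_lt.2 h3.le), fun h => absurd h4 h⟩
      · exact ⟨fun _ => not_lt.2 h4.le, fun _ => h3⟩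
    · intro h
      rcases lt_or_gt_of_ne h1 with h3 | h3
      · right
        exact ⟨h3, lt_of_le_of_ne (not_lt.1 (h.1 h3)) h2.symm⟩
      · left
        refine ⟨h3, ?_⟩
        by_contra h4
        exact absurd (h.2 h4) (not_lt.2 h3.le)
  · -- n1
    intro a ha b hb x hx hpa hpb hcr nab nax nbx h1 h2
    have hya := hp_hy hC ha hpa
    have hyb := hp_hy hC hb hpb
    have hpos := pos_of_not_cr hC ha hb hya nab hcr
    rw [hC.sepf a ha b hb x hx hya hyb nab nax nbx] at h1
    rw [hC.self a ha x hx b hb hya nax nab] at h2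
    rcases lt_or_gt_of_ne (hC.nz a ha b hb hya nab) with h3 | h3
    · have h4 : τ a b⁻¹ < 0 := by
        by_contra h5
        exact absurd hpos (not_lt.2 (mul_nonpos_of_nonpos_of_nonneg h3.le (not_lt.1 h5)))
      have h5 : 0 < τ a x := by
        by_contra h6
        exact absurd h2 (not_lt.2 (mul_nonneg_of_nonpos_of_nonpos (not_lt.1 h6) h3.le))
      have h6 : 0 < (τ a x - τ a b) * (τ a x - τ a b⁻¹) :=
        mul_pos (by linarith) (by linarith)
      linarith
    · have h4 : 0 < τ a b⁻¹ := by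
        by_contra h5
        exact absurd hpos (not_lt.2 (mul_nonpos_of_nonneg_of_nonpos h3.le (not_lt.1 h5)))
      have h5 : τ a x < 0 := by
        by_contra h6
        exact absurd h2 (not_lt.2 (mul_nonneg (not_lt.1 h6) h3.le))
      have h6 : 0 < (τ a x - τ a b) * (τ a x - τ a b⁻¹) :=
        mul_pos_of_neg_of_neg (by linarith) (by linarith)
      linarith
  · -- n2
    intro a ha b hb c hc hpa hcr nab hcom hc1
    have hya := hp_hy hC ha hpa
    have nac : Nc a c := by
      intro h1
      exact nab (hG.trans a ha c hc b hb hc1 h1 hcom.symm)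
    have hpos := pos_of_not_cr hC ha hb hya nab hcr
    unfold sdT
    rcases hC.com a ha b hb c hc hya nab nac hcom with ⟨e1, e2⟩ | ⟨e1, e2⟩
    · rw [e1]
    · rw [e1]
      constructor
      · intro h3
        by_contra h5
        exact absurd hpos (not_lt.2 (mul_nonpos_of_nonpos_of_nonneg h3.le (not_lt.1 h5)))
      · intro h3
        by_contra h5
        exact absurd hpos (not_lt.2 (mul_nonpos_of_nonneg_of_nonpos (not_lt.1 h5) h3.le))
  · -- n3
    intro a ha x hx hpa nax
    have hya := hp_hy hC ha hpa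
    have hk := hC.kap a ha hya
    unfold sdT
    rw [hC.tr a ha x hx hya nax]
    constructor
    · intro h
      by_contra h5
      exact absurd h (not_lt.2 (mul_nonneg (by linarith) (not_lt.1 h5)))
    · intro h
      exact mul_neg_of_pos_of_neg (by linarith) h
  · -- n4
    intro a ha b hb hpa hpb hcr nab hcr2 h1
    have hya := hp_hy hC ha hpa
    have hyb := hp_hy hC hb hpb
    have hk := hC.kap a ha hya
    have hpos := pos_of_not_cr hC ha hb hya nab hcr
    have hb1D : a * b * a⁻¹ ∈ D := D.mul_mem (D.mul_mem ha hb) (D.inv_mem ha)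
    have hbne : b ≠ 1 := by
      intro h
      apply nab
      rw [h]
      simp
    have nbb : Nc b (a * b * a⁻¹) := by
      intro h
      exact nab (hG.norm a ha b hb hbne h.symm)
    have nab1 : Nc a (a * b * a⁻¹) := nc_conj nab
    have einv : (a * b * a⁻¹)⁻¹ = a * b⁻¹ * a⁻¹ := by group
    have t1 := hC.tr a ha b hb hya nab
    have t2 := hC.tr a ha b⁻¹ (D.inv_mem hb) hya (nc_inv nab)
    rw [← einv] at t2
    have s1 := hC.sep a ha b hb (a * b * a⁻¹) hb1D (a * b * a⁻¹)⁻¹ (D.inv_mem hb1D) hya hyb nab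
      nab1 (nc_inv nab1) nbb (nc_inv nbb)
    have s2 := hC.sepf a ha b hb (a * b * a⁻¹) hb1D hya hyb nab nab1 nbb
    rw [s2, t1] at h1
    apply hcr2
    change Sp b (a * b * a⁻¹) (a * b * a⁻¹)⁻¹
    rw [s1, t1, t2]
    refine mul_neg_of_neg_of_pos h1 ?_
    set B := τ a b with hB
    set B' := τ a b⁻¹ with hB'
    set k := κ a with hkk
    rcases lt_or_gt_of_ne (hC.nz a ha b hb hya nab) with h3 | h3
    · have h4 : B' < 0 := by
        by_contra h5
        exact absurd hpos (not_lt.2 (mul_nonpos_of_nonpos_of_nonneg h3.le (not_lt.1 h5)))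
      have e1 : k * B - B < 0 := by nlinarith
      have e2 : 0 < k * B - B' := by
        by_contra h5
        exact absurd h1 (not_lt.2 (mul_nonneg_of_nonpos_of_nonpos e1.le (not_lt.1 h5)))
      have e3 : k * B' - B' < 0 := by nlinarith
      have e4 : k * B' - B < 0 := by linarith
      exact mul_pos_of_neg_of_neg e4 e3
    · have h4 : 0 < B' := by
        by_contra h5
        exact absurd hpos (not_lt.2 (mul_nonpos_of_nonneg_of_nonpos h3.le (not_lt.1 h5)))
      have e1 : 0 < k * B - B := by nlinarith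
      have e2 : k * B - B' < 0 := by
        by_contra h5
        exact absurd h1 (not_lt.2 (mul_nonneg e1.le (not_lt.1 h5)))
      have e3 : 0 < k * B' - B' := by nlinarith
      have e4 : 0 < k * B' - B := by linarith
      exact mul_pos e4 e3

end

end Pool.Agent.Helper90.LN
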