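import Pool.Agent.Helper64.LN.GoalsB

set_option autoImplicit false

/-! Project LN, packet SEG: segments (chords of the hyperboloid). -/

open Topology Filter Set Metric UpperHalfPlane
open scoped MatrixGroups

namespace Pool.Agent.Helper90.LN

open Pool.Agent.Helper64.LN

/-- First coordinate of the chord. -/
noncomputable def cP (z w : ℍ) (t : ℝ) : ℝ :=
  (1 - t) * ((z.re ^ 2 + z.im ^ 2) / z.im) + t * ((w.re ^ 2 + w.im ^ 2) / w.im)

/-- Second coordinate of the chord. -/
noncomputable def cQ (z w : ℍ) (t : ℝ) : ℝ := (1 - t) * (z.re / z.im) + t * (w.re / w.im)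

/-- Third coordinate of the chord. -/
noncomputable def cR (z w : ℍ) (t : ℝ) : ℝ := (1 - t) * (1 / z.im) + t * (1 / w.im)

theorem cR_pos (z w : ℍ) {t : ℝ} (h0 : 0 ≤ t) (h1 : t ≤ 1) : 0 < cR z w t := by
  have hz := z.im_pos
  have hw := w.im_pos
  unfold cR
  have a : 0 < 1 / z.im := by positivity
  have b : 0 < 1 / w.im := by positivity
  rcases eq_or_lt_of_le h0 with h | h
  · rw [← h]; linarith
  · have h2 : 0 < t * (1 / w.im) := mul_pos h b
    have h3 : 0 ≤ (1 - t) * (1 / z.im) := mul_nonneg (by linarith) a.le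
    linarith

theorem disc_eq (z w : ℍ) (t : ℝ) : cP z w t * cR z w t - cQ z w t ^ 2 =
    (1 - t) ^ 2 + t ^ 2 +
      t * (1 - t) * (((z.re - w.re) ^ 2 + z.im ^ 2 + w.im ^ 2) / (z.im * w.im)) := by
  have hz := z.im_pos.ne'
  have hw := w.im_pos.ne'
  unfold cP cQ cR
  field_simp
  ring

theorem disc_pos (z w : ℍ) {t : ℝ} (h0 : 0 ≤ t) (h1 : t ≤ 1) :
    0 < cP z w t * cR z w t - cQ z w t ^ 2 := by
  rw [disc_eq]
  have hz := z.im_pos
  have hw := w.im_pos
  have a : 0 ≤ t * (1 - t) * (((z.re - w.re) ^ 2 + z.im ^ 2 + w.im ^ 2) / (z.im * w.im)) := by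
    refine mul_nonneg (mul_nonneg h0 (by linarith)) ?_
    positivity
  have b : 0 < (1 - t) ^ 2 + t ^ 2 := by nlinarith [sq_nonneg (1 - 2 * t)]
  linarith

/-- The curve in the complex plane. -/
noncomputable def cc (z w : ℍ) (t : ℝ) : ℂ :=
  ⟨cQ z w t / cR z w t, Real.sqrt (cP z w t * cR z w t - cQ z w t ^ 2) / cR z w t⟩

theorem cc_pos (z w : ℍ) {t : ℝ} (h0 : 0 ≤ t) (h1 : t ≤ 1) : 0 < (cc z w t).im :=
  div_pos (Real.sqrt_pos.2 (disc_pos z w h0 h1)) (cR_pos z w h0 h1)

theorem sf_cc (z w : ℍ) (g : SL(2, ℝ)) {t : ℝ} (h0 : 0 ≤ t) (h1 : t ≤ 1) :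
    sf g ⟨cc z w t, cc_pos z w h0 h1⟩ =
      ((1 - t) * (sf g z / z.im) + t * (sf g w / w.im)) / cR z w t := by
  have hR := (cR_pos z w h0 h1).ne'
  have hs := Real.sq_sqrt (disc_pos z w h0 h1).le
  have hz := z.im_pos.ne'
  have hw := w.im_pos.ne'
  have e : (cQ z w t / cR z w t) ^ 2 +
      (Real.sqrt (cP z w t * cR z w t - cQ z w t ^ 2) / cR z w t) ^ 2 =
      cP z w t / cR z w t := by
    rw [div_pow, div_pow, hs]
    field_simp
    ring
  have e1 : sf g ⟨cc z w t, cc_pos z w h0 h1⟩ =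
      g 1 0 * ((cQ z w t / cR z w t) ^ 2 +
        (Real.sqrt (cP z w t * cR z w t - cQ z w t ^ 2) / cR z w t) ^ 2) +
      (g 1 1 - g 0 0) * (cQ z w t / cR z w t) - g 0 1 := rfl
  rw [e1, e]
  have e2 : (1 - t) * (sf g z / z.im) + t * (sf g w / w.im) =
      g 1 0 * cP z w t + (g 1 1 - g 0 0) * cQ z w t - g 0 1 * cR z w t := by
    unfold sf cP cQ cR
    field_simp
    ring
  rw [e2]
  field_simp

theorem goalSEG : GoalSEG := by
  intro z w
  have hcont : Continuous fun t : unitInterval => cc z w (t : ℝ) := by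
    have hR : Continuous fun t : unitInterval => cR z w (t : ℝ) := by
      unfold cR; fun_prop
    have hP : Continuous fun t : unitInterval => cP z w (t : ℝ) := by
      unfold cP; fun_prop
    have hQ : Continuous fun t : unitInterval => cQ z w (t : ℝ) := by
      unfold cQ; fun_prop
    have hne : ∀ t : unitInterval, cR z w (t : ℝ) ≠ 0 := fun t => (cR_pos z w t.2.1 t.2.2).ne'
    have h1 : Continuous fun t : unitInterval => cQ z w (t : ℝ) / cR z w (t : ℝ) :=
      hQ.div hR hne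
    have h2 : Continuous fun t : unitInterval =>
        Real.sqrt (cP z w (t : ℝ) * cR z w (t : ℝ) - cQ z w (t : ℝ) ^ 2) / cR z w (t : ℝ) :=
      ((hP.mul hR).sub (hQ.pow 2)).sqrt.div hR hne
    have h3 : (fun t : unitInterval => cc z w (t : ℝ)) = fun t : unitInterval =>
        ((cQ z w (t : ℝ) / cR z w (t : ℝ) : ℝ) : ℂ) +
          ((Real.sqrt (cP z w (t : ℝ) * cR z w (t : ℝ) - cQ z w (t : ℝ) ^ 2) /
            cR z w (t : ℝ) : ℝ) : ℂ) * Complex.I := by
      funext t
      apply Complex.ext <;> simp [cc]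
    rw [h3]
    exact (Complex.continuous_ofReal.comp h1).add
      ((Complex.continuous_ofReal.comp h2).mul continuous_const)
  let σ : C(unitInterval, ℍ) :=
    ⟨fun t => ⟨cc z w (t : ℝ), cc_pos z w t.2.1 t.2.2⟩,
      hcont.upperHalfPlaneMk fun t => cc_pos z w t.2.1 t.2.2⟩
  have hz := z.im_pos
  have hw := w.im_pos
  refine ⟨σ, ?_, ?_, ?_⟩
  · have h0 : ((0 : unitInterval) : ℝ) = 0 := rfl
    have hd : cP z w 0 * cR z w 0 - cQ z w 0 ^ 2 = 1 := by
      rw [disc_eq]; simp
    have hR : cR z w 0 = 1 / z.im := by unfold cR; ring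
    have hQ : cQ z w 0 = z.re / z.im := by unfold cQ; ring
    apply UpperHalfPlane.ext_re_im
    · change cQ z w ((0 : unitInterval) : ℝ) / cR z w ((0 : unitInterval) : ℝ) = z.re
      rw [h0, hR, hQ]
      field_simp
    · change Real.sqrt (cP z w ((0 : unitInterval) : ℝ) * cR z w ((0 : unitInterval) : ℝ) -
        cQ z w ((0 : unitInterval) : ℝ) ^ 2) / cR z w ((0 : unitInterval) : ℝ) = z.im
      rw [h0, hd, hR, Real.sqrt_one]
      field_simp
  · have h0 : ((1 : unitInterval) : ℝ) = 1 := rfl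
    have hd : cP z w 1 * cR z w 1 - cQ z w 1 ^ 2 = 1 := by
      rw [disc_eq]; simp
    have hR : cR z w 1 = 1 / w.im := by unfold cR; ring
    have hQ : cQ z w 1 = w.re / w.im := by unfold cQ; ring
    apply UpperHalfPlane.ext_re_im
    · change cQ z w ((1 : unitInterval) : ℝ) / cR z w ((1 : unitInterval) : ℝ) = w.re
      rw [h0, hR, hQ]
      field_simp
    · change Real.sqrt (cP z w ((1 : unitInterval) : ℝ) * cR z w ((1 : unitInterval) : ℝ) -
        cQ z w ((1 : unitInterval) : ℝ) ^ 2) / cR z w ((1 : unitInterval) : ℝ) = w.im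
      rw [h0, hd, hR, Real.sqrt_one]
      field_simp
  · intro g hg t
    have h0 := t.2.1
    have h1 := t.2.2
    have e : sf g (σ t) = ((1 - (t : ℝ)) * (sf g z / z.im) + t * (sf g w / w.im)) / cR z w t :=
      sf_cc z w g h0 h1
    have hR := cR_pos z w h0 h1
    rw [e]
    have e2 : sf g z * (((1 - (t : ℝ)) * (sf g z / z.im) + t * (sf g w / w.im)) / cR z w t) =
        ((1 - (t : ℝ)) * (sf g z ^ 2 / z.im) + t * (sf g z * sf g w / w.im)) / cR z w t := by
      ring
    rw [e2]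
    have hne : sf g z ≠ 0 := by
      intro h
      rw [h, zero_mul] at hg
      exact lt_irrefl _ hg
    refine div_pos ?_ hR
    have a : 0 < sf g z ^ 2 / z.im := by positivity
    have b : 0 < sf g z * sf g w / w.im := div_pos hg hw
    rcases eq_or_lt_of_le h0 with h | h
    · rw [← h]; linarith
    · have h2 := mul_pos h b
      have h3 : 0 ≤ (1 - (t : ℝ)) * (sf g z ^ 2 / z.im) := mul_nonneg (by linarith) a.le
      linarith

end Pool.Agent.Helper90.LN
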