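import Pool.Agent.Helper85.LN.Goals

/-!
# Project LN (MP_d0c558_al), packet GT1: few sections leave the closed set.
-/

namespace Pool.Agent.Helper90.LN

open Pool.Agent.Helper85.LN

section general

variable {Q X : Type*} (A : Auto Q X)

theorem run_cons90 (q : Q) (a : X) (u : List X) : A.run q (a :: u) = A.run (A.tr q a) u := rfl

theorem run_append90 (q : Q) (u v : List X) : A.run q (u ++ v) = A.run (A.run q u) v := by
  unfold Auto.run
  rw [List.foldl_append]

theorem run_mem90 {T : Set Q} (hT : ∀ q ∈ T, ∀ a, A.tr q a ∈ T) (u : List X) :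
    ∀ q ∈ T, A.run q u ∈ T := by
  induction u with
  | nil => exact fun q hq => hq
  | cons a u ih =>
    intro q hq
    rw [run_cons90]
    exact ih _ (hT q hq a)

theorem secw_nil90 (w : List (S Q)) : secw A w [] = w := rfl

theorem secw_cons90 (w : List (S Q)) (a : X) (u : List X) :
    secw A w (a :: u) = secw A (A.toWA.scw w a) u := rfl

theorem secw_append90 (p w : List (S Q)) (u : List X) :
    secw A (p ++ w) u = secw A p (A.val w u) ++ secw A w u := by
  induction u generalizing p w with
  | nil => rw [A.val_apply_nil]; rfl
  | cons a u ih =>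
    rw [secw_cons90, A.toWA.scw_append, ih, A.val_apply_cons, secw_cons90, secw_cons90]

theorem secw_pos90 (q : Q) (u : List X) : secw A [(q, true)] u = [(A.run q u, true)] := by
  induction u generalizing q with
  | nil => rfl
  | cons a u ih =>
    rw [secw_cons90, run_cons90]
    exact ih _

theorem secw_neg90 (q : Q) (u : List X) :
    secw A [(q, false)] u = [(A.run q (A.val [(q, false)] u), false)] := by
  induction u generalizing q with
  | nil => rw [A.val_apply_nil]; rfl
  | cons b u ih =>
    rw [secw_cons90, A.val_apply_cons, run_cons90]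
    have h1 : A.toWA.scw [(q, false)] b = [(A.tr q ((A.out q).symm b), false)] := rfl
    have h2 : A.toWA.ltw [(q, false)] b = (A.out q).symm b := rfl
    rw [h1, h2, ih]

end general

theorem ncard_length90 (d n : ℕ) : {u : List (Fin d) | u.length = n}.ncard = d ^ n := by
  have h : {u : List (Fin d) | u.length = n}.ncard = Nat.card (List.Vector (Fin d) n) := rfl
  rw [h, Nat.card_eq_fintype_card, card_vector, Fintype.card_fin]

theorem finite_length90 (d n : ℕ) : {u : List (Fin d) | u.length = n}.Finite :=
  List.finite_length_eq (Fin d) n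

variable {m d : ℕ} (A : Auto (Fin m) (Fin d))

theorem bad90 {T : Set (Fin m)} {M : ℕ} (hT : ∀ q ∈ T, ∀ a, A.tr q a ∈ T)
    (hM : ∀ q, ∃ u : List (Fin d), u.length = M ∧ A.run q u ∈ T) (k : ℕ) (q : Fin m) :
    {u : List (Fin d) | u.length = k * M ∧ A.run q u ∉ T}.ncard ≤ (d ^ M - 1) ^ k := by
  classical
  induction k with
  | zero =>
    rw [pow_zero]
    have h1 : {u : List (Fin d) | u.length = 0 * M ∧ A.run q u ∉ T} ⊆ {[]} := by
      rintro u ⟨hu, -⟩
      rw [zero_mul] at hu
      exact List.length_eq_zero_iff.1 hu
    exact (Set.ncard_le_ncard h1 (Set.finite_singleton _)).trans (Set.ncard_singleton _).le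
  | succ k ih =>
    have hfin : ∀ j, {u : List (Fin d) | u.length = j * M ∧ A.run q u ∉ T}.Finite := fun j =>
      (finite_length90 d (j * M)).subset fun u hu => hu.1
    rw [Set.ncard_eq_toFinset_card _ (hfin k)] at ih
    rw [Set.ncard_eq_toFinset_card _ (hfin (k + 1))]
    have key := Finset.card_le_mul_card_image_of_maps_to (s := (hfin (k + 1)).toFinset)
      (t := (hfin k).toFinset) (f := fun u => u.take (k * M)) ?_ (d ^ M - 1) ?_
    · calc _ ≤ (d ^ M - 1) * (hfin k).toFinset.card := key
        _ ≤ (d ^ M - 1) * (d ^ M - 1) ^ k := Nat.mul_le_mul_left _ ih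
        _ = (d ^ M - 1) ^ (k + 1) := by ring
    · intro u hu
      rw [Set.Finite.mem_toFinset] at hu ⊢
      obtain ⟨h1, h2⟩ := hu
      have h3 : k * M ≤ u.length := by rw [h1]; exact Nat.mul_le_mul_right _ (Nat.le_succ k)
      refine ⟨by rw [List.length_take]; omega, fun h4 => h2 ?_⟩
      rw [← List.take_append_drop (k * M) u, run_append90]
      exact run_mem90 A hT _ _ h4
    · intro u' _
      obtain ⟨z, hz1, hz2⟩ := hM (A.run q u')
      have hF : ({u : List (Fin d) | u.length = M} \ {z}).Finite :=
        (finite_length90 d M).subset Set.sdiff_subset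
      have hcard : hF.toFinset.card = d ^ M - 1 := by
        rw [← Set.ncard_eq_toFinset_card _ hF, Set.ncard_sdiff_singleton_of_mem (show z ∈ _ from hz1),
          ncard_length90]
      rw [← hcard]
      refine Finset.card_le_card_of_injOn (fun u => u.drop (k * M)) ?_ ?_
      · intro u hu
        have hu' := Finset.mem_filter.1 (Finset.mem_coe.1 hu)
        obtain ⟨h0, h3⟩ := hu'
        rw [Set.Finite.mem_toFinset] at h0
        obtain ⟨h1, h2⟩ := h0
        refine Finset.mem_coe.2 ((Set.Finite.mem_toFinset hF).2 ⟨?_, ?_⟩)
        · change (u.drop (k * M)).length = M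
          rw [List.length_drop, h1]
          have : (k + 1) * M = k * M + M := by ring
          omega
        · intro h4
          have h4' : u.drop (k * M) = z := h4
          apply h2
          rw [← List.take_append_drop (k * M) u, run_append90, h4']
          have h3' : u.take (k * M) = u' := h3
          rw [h3']
          exact hz2
      · intro u hu v hv huv
        have h1 := (Finset.mem_filter.1 (Finset.mem_coe.1 hu)).2
        have h2 := (Finset.mem_filter.1 (Finset.mem_coe.1 hv)).2
        have h1' : u.take (k * M) = u' := h1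
        have h2' : v.take (k * M) = u' := h2
        have h3' : u.drop (k * M) = v.drop (k * M) := huv
        rw [← List.take_append_drop (k * M) u, ← List.take_append_drop (k * M) v, h1', h2', h3']

theorem pre90 (w : List (S (Fin m))) (P : List (Fin d) → Prop) (n : ℕ) :
    {u : List (Fin d) | u.length = n ∧ P (A.val w u)}.ncard ≤
      {u : List (Fin d) | u.length = n ∧ P u}.ncard := by
  refine Set.ncard_le_ncard_of_injOn (fun u => A.val w u) ?_ ?_ ?_
  · rintro u ⟨h1, h2⟩
    exact ⟨by rw [A.val_length]; exact h1, h2⟩
  · exact (A.val w).injective.injOn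
  · exact (finite_length90 d n).subset fun u hu => hu.1

theorem gt1 : S_GT1 := by
  intro m d A T M k w hT hM
  induction w with
  | nil =>
    have h : {u : List (Fin d) | u.length = k * M ∧ ∃ s ∈ secw A [] u, s.1 ∉ T} = ∅ := by
      ext u
      constructor
      · rintro ⟨-, s, hs, -⟩
        have h1 : ∀ v : List (Fin d), secw A [] v = [] := by
          intro v
          induction v with
          | nil => rfl
          | cons a v ih => rw [secw_cons90]; exact ih
        rw [h1] at hs
        exact absurd hs List.not_mem_nil
      · exact fun h => h.elim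
    rw [h, Set.ncard_empty]
    exact Nat.zero_le _
  | cons s w ih =>
    obtain ⟨q, e⟩ := s
    obtain ⟨v, hv⟩ : ∃ v : List (S (Fin m)), ∀ u, secw A ((q, e) :: w) u =
        (A.run q (A.val v u), e) :: secw A w u := by
      cases e with
      | true =>
        refine ⟨w, fun u => ?_⟩
        have h := secw_append90 A [(q, true)] w u
        rw [secw_pos90] at h
        exact h
      | false =>
        refine ⟨[(q, false)] ++ w, fun u => ?_⟩
        have h := secw_append90 A [(q, false)] w u
        rw [secw_neg90] at h
        rw [A.val_append]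
        exact h
    have hsub : {u : List (Fin d) | u.length = k * M ∧ ∃ s ∈ secw A ((q, e) :: w) u, s.1 ∉ T} ⊆
        {u : List (Fin d) | u.length = k * M ∧ A.run q (A.val v u) ∉ T} ∪
        {u : List (Fin d) | u.length = k * M ∧ ∃ s ∈ secw A w u, s.1 ∉ T} := by
      rintro u ⟨h1, s, hs, h2⟩
      rw [hv] at hs
      rcases List.mem_cons.1 hs with h | h
      · left
        refine ⟨h1, ?_⟩
        rw [h] at h2
        exact h2
      · right
        exact ⟨h1, s, h, h2⟩
    have hfin : ({u : List (Fin d) | u.length = k * M ∧ A.run q (A.val v u) ∉ T} ∪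
        {u : List (Fin d) | u.length = k * M ∧ ∃ s ∈ secw A w u, s.1 ∉ T}).Finite := by
      refine (finite_length90 d (k * M)).subset ?_
      rintro u (hu | hu)
      · exact hu.1
      · exact hu.1
    have h3 := Set.ncard_le_ncard hsub hfin
    have h4 := Set.ncard_union_le {u : List (Fin d) | u.length = k * M ∧ A.run q (A.val v u) ∉ T}
      {u : List (Fin d) | u.length = k * M ∧ ∃ s ∈ secw A w u, s.1 ∉ T}
    have h5 := pre90 A v (fun u => A.run q u ∉ T) (k * M)
    have h6 := bad90 A hT hM k q
    rw [List.length_cons, add_mul, one_mul]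
    omega

end Pool.Agent.Helper90.LN
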