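import Pool.Agent.Helper85.LN.Goals

/-!
# Project LN (MP_d0c558_al), packet RFIND: search for a certificate of one of two types.
-/

namespace Pool.Agent.Helper90.LN

open Pool.Agent.Helper85.LN

open Classical in
/-- the test of one candidate -/
noncomputable def tst90 (P : AC → CC → Prop) (V : AC → VC → Prop) (x : AC) (s : CC ⊕ VC) :
    Option Bool :=
  Sum.casesOn s (fun c => if P x c then some true else none)
    (fun c => if V x c then some false else none)

theorem tst_primrec90 {P : AC → CC → Prop} {V : AC → VC → Prop}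
    (hP : PrimrecPred fun p : AC × CC => P p.1 p.2) (hV : PrimrecPred fun p : AC × VC => V p.1 p.2) :
    Primrec₂ (tst90 P V) := by
  classical
  refine Primrec.sumCasesOn (f := fun p : AC × (CC ⊕ VC) => p.2)
    (g := fun p c => if P p.1 c then some true else none)
    (h := fun p c => if V p.1 c then some false else none) Primrec.snd ?_ ?_
  · refine Primrec.ite (c := fun q : (AC × (CC ⊕ VC)) × CC => P q.1.1 q.2) ?_
      (Primrec.const _) (Primrec.const _)
    exact hP.comp (Primrec.pair (Primrec.fst.comp Primrec.fst) Primrec.snd)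
  · refine Primrec.ite (c := fun q : (AC × (CC ⊕ VC)) × VC => V q.1.1 q.2) ?_
      (Primrec.const _) (Primrec.const _)
    exact hV.comp (Primrec.pair (Primrec.fst.comp Primrec.fst) Primrec.snd)

theorem tst_some90 {P : AC → CC → Prop} {V : AC → VC → Prop} {x : AC} {s : CC ⊕ VC} {b : Bool}
    (h : b ∈ tst90 P V x s) : (b = true ∧ ∃ c, P x c) ∨ (b = false ∧ ∃ c, V x c) := by
  classical
  cases s with
  | inl c =>
    have h' : b ∈ (if P x c then some true else none) := h
    by_cases hc : P x c
    · rw [if_pos hc] at h'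
      exact Or.inl ⟨(Option.some.inj h').symm, c, hc⟩
    · rw [if_neg hc] at h'
      exact absurd h' (by simp)
  | inr c =>
    have h' : b ∈ (if V x c then some false else none) := h
    by_cases hc : V x c
    · rw [if_pos hc] at h'
      exact Or.inr ⟨(Option.some.inj h').symm, c, hc⟩
    · rw [if_neg hc] at h'
      exact absurd h' (by simp)

theorem rfind : S_RFIND := by
  classical
  intro P V hP hV
  have ht : Primrec₂ (fun (x : AC) (n : ℕ) =>
      (Encodable.decode (α := CC ⊕ VC) n).bind (tst90 P V x)) :=
    Primrec.option_bind (f := fun p : AC × ℕ => Encodable.decode (α := CC ⊕ VC) p.2)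
      (g := fun p s => tst90 P V p.1 s) (Primrec.decode.comp Primrec.snd)
      ((tst_primrec90 hP hV).comp (Primrec.fst.comp Primrec.fst) Primrec.snd)
  refine ⟨fun x => Nat.rfindOpt fun n => (Encodable.decode (α := CC ⊕ VC) n).bind (tst90 P V x),
    Partrec.rfindOpt ht.to_comp, ?_, ?_⟩
  · intro x b hb
    obtain ⟨n, hn⟩ := Nat.rfindOpt_spec hb
    obtain ⟨s, -, hs⟩ := Option.mem_bind_iff.1 hn
    exact tst_some90 hs
  · intro x hx
    rw [Nat.rfindOpt_dom]
    rcases hx with ⟨c, hc⟩ | ⟨c, hc⟩
    · refine ⟨Encodable.encode (Sum.inl c : CC ⊕ VC), true, Option.mem_bind_iff.2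
        ⟨Sum.inl c, Encodable.encodek _, ?_⟩⟩
      change true ∈ (if P x c then some true else none)
      rw [if_pos hc]
      rfl
    · refine ⟨Encodable.encode (Sum.inr c : CC ⊕ VC), false, Option.mem_bind_iff.2
        ⟨Sum.inr c, Encodable.encodek _, ?_⟩⟩
      change false ∈ (if V x c then some false else none)
      rw [if_pos hc]
      rfl

end Pool.Agent.Helper90.LN
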