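import Pool.Agent.Helper85.LN.Goals

/-!
# Project LN (MP_d0c558_al), packet SND: certificates of local nontriviality are correct.
-/

namespace Pool.Agent.Helper90.LN

open Pool.Agent.Helper85.LN

/-- An endomap of a finite type which respects an equivalence relation and is injective on the classes is
surjective on the classes. -/
theorem surj_classes90 {F : Type*} [Finite F] (s : Setoid F) (f : F → F)
    (h1 : ∀ u v, s.r u v → s.r (f u) (f v)) (h2 : ∀ u v, s.r (f u) (f v) → s.r u v) (x : F) :
    ∃ v, s.r (f v) x := by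
  have hinj : Function.Injective (Quotient.map (sa := s) (sb := s) f h1) := by
    intro u v
    induction u using Quotient.inductionOn
    induction v using Quotient.inductionOn
    intro h
    exact Quotient.sound (h2 _ _ (Quotient.exact h))
  obtain ⟨v, hv⟩ := (Finite.injective_iff_surjective.1 hinj) (Quotient.mk s x)
  induction v using Quotient.inductionOn with
  | h v => exact ⟨v, Quotient.exact hv⟩

theorem snd : S_SND := by
  intro m d A ⟨R, k, B, t, l, hA, hB, hc⟩
  -- one letter
  have hone : ∀ (s : S (Fin m)) (b : Fin d),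
      B.ltw (A.toWA.sc s b) (t b) = t (A.toWA.lt s b) ∧
      Eqv R (B.scw (A.toWA.sc s b) (t b) ++ l b) (l (A.toWA.lt s b) ++ [s]) := by
    intro s b
    obtain ⟨q, e⟩ := s
    cases e with
    | true =>
      have h := hc q b
      refine ⟨h.1, ?_⟩
      have e1 : B.scw (A.toWA.sc (q, true) b) (t b) = B.sc (A.tr q b, true) (t b) := by
        change B.sc (A.tr q b, true) (t b) ++ [] = _
        rw [List.append_nil]
      rw [e1]
      exact h.2
    | false =>
      set c : Fin d := (A.out q).symm b with hcdef
      set p : Fin m := A.tr q c with hp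
      have hb : A.out q c = b := Equiv.apply_symm_apply _ _
      have h := hc q c
      rw [hb] at h
      have h1 : B.lt (p, false) (t b) = t c := by
        rw [← h.1]
        exact B.lt_neg (p, true) (t c)
      have h2 : B.sc (p, false) (t b) = iw (B.sc (p, true) (t c)) := by
        rw [← h.1]
        exact B.sc_neg (p, true) (t c)
      have e1 : A.toWA.sc (q, false) b = [(p, false)] := rfl
      have e2 : A.toWA.lt (q, false) b = c := rfl
      rw [e1, e2]
      refine ⟨h1, ?_⟩
      have e3 : B.scw [(p, false)] (t b) = B.sc (p, false) (t b) := by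
        change B.sc (p, false) (t b) ++ [] = _
        rw [List.append_nil]
      rw [e3, h2]
      generalize B.sc (p, true) (t c) = T at h
      have h3 : Eqv R ((iw T ++ T) ++ l c) ([] ++ l c) := (Eqv.iw_mul T).append_right _
      have h4 : Eqv R (iw T ++ (T ++ l c)) (iw T ++ (l b ++ [(q, true)])) := h.2.append_left _
      rw [List.append_assoc] at h3
      have h5 : Eqv R (l c) (iw T ++ (l b ++ [(q, true)])) := h3.symm.trans h4
      have h6 : Eqv R (l c ++ [(q, false)]) ((iw T ++ (l b ++ [(q, true)])) ++ [(q, false)]) :=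
        h5.append_right _
      have h7 : Eqv R ((iw T ++ l b) ++ [(q, true), (q, false)]) ((iw T ++ l b) ++ []) :=
        (Eqv.triv q true).append_left _
      have e4 : (iw T ++ (l b ++ [(q, true)])) ++ [(q, false)] =
          (iw T ++ l b) ++ [(q, true), (q, false)] := by simp
      rw [e4] at h6
      rw [List.append_nil] at h7
      exact (h6.trans h7).symm
  -- all words
  have hall : ∀ (w : List (S (Fin m))) (a : Fin d),
      B.ltw (A.toWA.scw w a) (t a) = t (A.toWA.ltw w a) ∧
      Eqv R (B.scw (A.toWA.scw w a) (t a) ++ l a) (l (A.toWA.ltw w a) ++ w) := by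
    intro w a
    induction w with
    | nil =>
      refine ⟨rfl, ?_⟩
      change Eqv R ([] ++ l a) (l a ++ [])
      rw [List.append_nil, List.nil_append]
      exact Eqv.refl _
    | cons s w ih =>
      have h := hone s (A.toWA.ltw w a)
      have e1 : A.toWA.scw (s :: w) a = A.toWA.sc s (A.toWA.ltw w a) ++ A.toWA.scw w a := rfl
      have e2 : A.toWA.ltw (s :: w) a = A.toWA.lt s (A.toWA.ltw w a) := rfl
      rw [e1, e2, B.ltw_append, B.scw_append, ih.1]
      refine ⟨h.1, ?_⟩
      have h3 := ih.2.append_left (B.scw (A.toWA.sc s (A.toWA.ltw w a)) (t (A.toWA.ltw w a)))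
      have h4 := h.2.append_right w
      rw [← List.append_assoc, ← List.append_assoc] at h3
      have h5 := h3.trans h4
      rw [List.append_assoc (l _) [s] w] at h5
      exact h5
  have htwo : ∀ (w u : List (S (Fin m))) (a : Fin d), A.toWA.ltw w a = a → A.toWA.ltw u a = a →
      Eqv R (A.toWA.scw w a) (A.toWA.scw u a) → Eqv R w u := by
    intro w u a hw hu h
    have h1 := (hall w a).2
    have h2 := (hall u a).2
    rw [hw] at h1
    rw [hu] at h2
    have h3 : Eqv R (B.scw (A.toWA.scw w a) (t a) ++ l a) (B.scw (A.toWA.scw u a) (t a) ++ l a) :=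
      (hB.eqv h (t a)).2.append_right _
    exact ((h1.symm.trans h3).trans h2).cancel
  rw [A.LN_iff]
  intro w a hw hval
  let F : Type := {v : List (S (Fin m)) // v.length = w.length ∧ A.val v = 1}
  haveI : Finite F := by
    have h1 : {v : List (S (Fin m)) | v.length = w.length ∧ A.val v = 1}.Finite :=
      (List.finite_length_eq (S (Fin m)) w.length).subset fun v hv => hv.1
    exact h1.to_subtype
  let s : Setoid F := ⟨fun u v => Eqv R u.1 v.1, fun u => Eqv.refl _, fun h => h.symm,
    fun h h' => h.trans h'⟩
  let f : F → F := fun v => ⟨A.toWA.scw v.1 a, by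
    rw [A.scw_length]
    exact v.2.1, A.scw_of_val_eq_one v.1 v.2.2 a⟩
  have hf1 : ∀ u v, s.r u v → s.r (f u) (f v) := fun u v h => (hA.eqv h a).2
  have hf2 : ∀ u v, s.r (f u) (f v) → s.r u v := fun u v h =>
    htwo u.1 v.1 a (A.ltw_of_val_eq_one u.1 u.2.2 a) (A.ltw_of_val_eq_one v.1 v.2.2 a) h
  let x : F := ⟨A.toWA.scw w a, A.scw_length w a, hval⟩
  obtain ⟨v, hv⟩ := surj_classes90 s f hf1 hf2 x
  have hv' : Eqv R (A.toWA.scw v.1 a) (A.toWA.scw w a) := hv
  have h1 : Eqv R v.1 w := htwo v.1 w a (A.ltw_of_val_eq_one v.1 v.2.2 a) hw hv'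
  rw [← hA.val h1]
  exact v.2.2

end Pool.Agent.Helper90.LN
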